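import Pool.Agent.X250.TorusOrb

/-!
# MP_629379_al, Q1: infinitely many orbits of maximal tori
-/

set_option autoImplicit false

namespace Pool.Agent.Results.MP_629379_al.InfinitelyManyOrbits

open Pool.Agent.X250.Torus

/-- **Negative answer to Q1.**  For `n = 2`, `r = 4` and suitable semisimple `M₁, …, M₅` (all equal
to `1`) the maximal tori lying in `X` fall into infinitely many `H`-orbits. -/
theorem result : ∀ (K : Type) [Field K] [IsAlgClosed K] [CharZero K],
    ∃ M : Fin (4 + 1) → GL (Fin 2) K, (∀ i, IsDiag (M i)) ∧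
      ∃ T : ℕ → Subgroup (GG K 2 4), (∀ k, IsMaxTorusIn (XX M) (T k)) ∧
        ∀ k l, k ≠ l → ¬ SameOrbit (XX M) (T k) (T l) :=
  fun K _ _ _ => main K

end Pool.Agent.Results.MP_629379_al.InfinitelyManyOrbits
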